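import Pool.Agent.Helper44.GJ.Stmts

open Finset MeasureTheory Filter Topology Matrix
open scoped ENNReal ContDiff

namespace Pool.Agent.Helper44.GJ

open Pool.Agent.Helper44.GF Pool.Agent.Helper44.GN Pool.Agent.Helper44.GH

namespace BLW

variable {n m : ℕ}

theorem cont_mv (V : Matrix (Fin n) (Fin m) ℝ) (i : Fin n) : Continuous fun x : Fin m → ℝ => V.mulVec x i := by
  unfold Matrix.mulVec dotProduct
  fun_prop

theorem null_hyper (V : Matrix (Fin n) (Fin m) ℝ) (j : Fin n) (hj : V j ≠ 0) :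
    ∀ᵐ x : Fin m → ℝ, V.mulVec x j ≠ 0 := by
  set L : (Fin m → ℝ) →ₗ[ℝ] ℝ := (LinearMap.proj j).comp V.mulVecLin with hL
  have h1 : LinearMap.ker L ≠ ⊤ := by
    intro h
    apply hj
    funext b
    have h2 : (Pi.single b 1 : Fin m → ℝ) ∈ LinearMap.ker L := by
      rw [h]
      trivial
    rw [LinearMap.mem_ker] at h2
    have h3 : L (Pi.single b 1) = V j b := by
      rw [hL]
      simp
    rw [h3] at h2
    exact h2
  have h2 := Measure.addHaar_submodule (volume : Measure (Fin m → ℝ)) (LinearMap.ker L) h1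
  have h3 : {x : Fin m → ℝ | ¬ V.mulVec x j ≠ 0} = (LinearMap.ker L : Set (Fin m → ℝ)) := by
    ext x
    simp [hL]
  rw [ae_iff, h3]
  exact h2

theorem ee_neg (p : ℝ) (V : Matrix (Fin n) (Fin m) ℝ) (x : Fin m → ℝ) : ee p V (-x) = ee p V x := by
  unfold ee Ph
  congr 1
  congr 1
  apply Finset.sum_congr rfl
  intro i _
  rw [Matrix.mulVec_neg, Pi.neg_apply, abs_neg]

theorem es_single (p : ℝ) (V : Matrix (Fin n) (Fin m) ℝ) (j : Fin n) (s : ℝ) (x : Fin m → ℝ) :
    es p V (Pi.single j s) x = Real.exp (-(s * V.mulVec x j ^ 2)) * ee p V x := by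
  unfold es
  congr 2
  rw [Finset.sum_eq_single j]
  · rw [Pi.single_eq_same]
  · intro i _ hi
    rw [Pi.single_eq_of_ne hi, zero_mul]
  · intro h
    exact absurd (Finset.mem_univ j) h

theorem ee_pos (p : ℝ) (V : Matrix (Fin n) (Fin m) ℝ) (x : Fin m → ℝ) : 0 < ee p V x := Real.exp_pos _

theorem int_odd (f : (Fin m → ℝ) → ℝ) (h : ∀ x, f (-x) = -f x) : ∫ x : Fin m → ℝ, f x = 0 := by
  have h1 : ∫ x : Fin m → ℝ, f (-x) = ∫ x : Fin m → ℝ, f x := integral_neg_eq_self f volume
  simp only [h] at h1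
  rw [integral_neg] at h1
  linarith

theorem gam (a : ℝ) (ha : 0 < a) (t : ℝ) (ht : t ≠ 0) :
    ∫⁻ s in Set.Ioi (0 : ℝ), ENNReal.ofReal (s ^ (a / 2 - 1) * Real.exp (-(s * t ^ 2))) =
      ENNReal.ofReal (Real.Gamma (a / 2) * |t| ^ (-a)) := by
  have ht2 : 0 < t ^ 2 := by positivity
  have h1 := Real.integral_rpow_mul_exp_neg_mul_Ioi (a := a / 2) (r := t ^ 2) (by linarith) ht2
  have h2 : (1 / t ^ 2) ^ (a / 2) = |t| ^ (-a) := by
    rw [one_div, ← sq_abs, ← Real.rpow_natCast |t| 2, ← Real.rpow_neg (abs_nonneg t), ← Real.rpow_mul (abs_nonneg t)]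
    congr 1
    push_cast
    ring
  rw [h2] at h1
  have h3 : ∫ s in Set.Ioi (0 : ℝ), s ^ (a / 2 - 1) * Real.exp (-(s * t ^ 2)) = Real.Gamma (a / 2) * |t| ^ (-a) := by
    rw [mul_comm (Real.Gamma _), ← h1]
    apply setIntegral_congr_fun measurableSet_Ioi
    intro s _
    beta_reduce
    rw [mul_comm s]
  have h4 : 0 < Real.Gamma (a / 2) * |t| ^ (-a) :=
    mul_pos (Real.Gamma_pos_of_pos (by linarith)) (Real.rpow_pos_of_pos (abs_pos.mpr ht) _)
  have h5 : IntegrableOn (fun s => s ^ (a / 2 - 1) * Real.exp (-(s * t ^ 2))) (Set.Ioi (0 : ℝ)) := by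
    by_contra hc
    have h6 : ∫ s in Set.Ioi (0 : ℝ), s ^ (a / 2 - 1) * Real.exp (-(s * t ^ 2)) = 0 := integral_undef hc
    rw [h6] at h3
    linarith
  rw [← h3, ofReal_integral_eq_lintegral_ofReal h5]
  filter_upwards [ae_restrict_mem measurableSet_Ioi] with s hs
  have : (0 : ℝ) < s := hs
  positivity

end BLW

open BLW in
theorem st_BLW (hIN0 : ST_IN0) (hIN1 : ST_IN1) (hBLC : ST_BLC) : ST_BLW := by
  intro n m p V hp hp3 hV F w hR hodd j hj a ha hap
  obtain ⟨hMp, hec, hI0⟩ := hIN0 n m p V (by linarith) hV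
  obtain ⟨C, k, hgr⟩ := hR.gr
  have hc0 : 0 < p * (p - 1) := mul_pos (by linarith) (by linarith)
  have hp2 : 0 < p - 2 := by linarith
  set t : (Fin m → ℝ) → ℝ := fun x => V.mulVec x j with ht
  have htc : Continuous t := cont_mv V j
  set G : (Fin m → ℝ) → ℝ := fun x => ∑ i, w i x ^ 2 / g2 p (V.mulVec x i) with hG
  have hg2n : ∀ y, 0 ≤ g2 p y := fun y => mul_nonneg hc0.le (Real.rpow_nonneg (abs_nonneg _) _)
  have hG0 : ∀ x, 0 ≤ G x := fun x => Finset.sum_nonneg fun i _ => div_nonneg (sq_nonneg _) (hg2n _)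
  have hg2c : Continuous (g2 p) := by
    unfold g2
    exact continuous_const.mul (continuous_abs.rpow_const fun _ => Or.inr hp2.le)
  have hGm : Measurable G := by
    rw [hG]
    apply Finset.measurable_sum
    intro i _
    exact ((hR.wc i).measurable.pow_const 2).div ((hg2c.comp (cont_mv V i)).measurable)
  have hgrow2 : ∀ f : (Fin m → ℝ) → ℝ, (∀ x, |f x| ≤ C * (1 + ‖x‖) ^ k) → ∀ x,
      |f x ^ 2| ≤ C ^ 2 * (1 + ‖x‖) ^ (2 * k) := by
    intro f hf x
    rw [abs_pow]
    have h1 := pow_le_pow_left₀ (abs_nonneg _) (hf x) 2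
    rw [mul_pow, ← pow_mul, mul_comm k 2] at h1
    exact h1
  -- a single term of the sum
  have hterm : ∀ b, 0 ≤ b → b + (p - 2) < 1 → ∀ i,
      Integrable (fun x => |t x| ^ (-b) * (w i x ^ 2 / g2 p (V.mulVec x i)) * ee p V x) := by
    intro b hb hb1 i
    by_cases hi : V i = 0
    · have h1 : ∀ x : Fin m → ℝ, V.mulVec x i = 0 := by
        intro x
        show V i ⬝ᵥ x = 0
        rw [hi, zero_dotProduct]
      have h2 : g2 p 0 = 0 := by
        unfold g2
        rw [abs_zero, Real.zero_rpow hp2.ne', mul_zero]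
      simp only [h1, h2, div_zero, mul_zero, zero_mul]
      exact integrable_zero _ _ _
    · have h1 := hIN1 n m p V hp hp3.le hV j i hj hi b (p - 2) hb hp2.le hb1
        (fun x => w i x ^ 2 / (p * (p - 1))) (C ^ 2 / (p * (p - 1))) (2 * k)
        (((hR.wc i).pow 2).div_const _).aestronglyMeasurable (by
          intro x
          rw [abs_div, abs_of_pos hc0, div_mul_eq_mul_div]
          exact div_le_div_of_nonneg_right (hgrow2 (w i) (fun x => (hgr x).2 i) x) hc0.le)
      refine h1.congr (Filter.Eventually.of_forall fun x => ?_)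
      show |t x| ^ (-b) * |V.mulVec x i| ^ (-(p - 2)) * (w i x ^ 2 / (p * (p - 1))) * ee p V x = _
      beta_reduce
      unfold g2
      rw [Real.rpow_neg (abs_nonneg (V.mulVec x i)) (p - 2)]
      by_cases h0 : |V.mulVec x i| ^ (p - 2) = 0
      · rw [h0]
        simp
      · field_simp
  have hGint : ∀ b, 0 ≤ b → b + (p - 2) < 1 → Integrable (fun x => (|t x| ^ (-b) * G x) * ee p V x) := by
    intro b hb hb1
    have h1 : (fun x => (|t x| ^ (-b) * G x) * ee p V x) =
        fun x => ∑ i, |t x| ^ (-b) * (w i x ^ 2 / g2 p (V.mulVec x i)) * ee p V x := by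
      funext x
      rw [hG]
      beta_reduce
      rw [Finset.mul_sum, Finset.sum_mul]
    rw [h1]
    exact integrable_finset_sum _ fun i _ => hterm b hb hb1 i
  have hGint0 : Integrable (fun x => G x * ee p V x) := by
    refine (hGint 0 le_rfl (by linarith)).congr (Filter.Eventually.of_forall fun x => ?_)
    beta_reduce
    rw [neg_zero, Real.rpow_zero, one_mul]
  have hF2 : Integrable (fun x => (|t x| ^ (-a) * F x ^ 2) * ee p V x) := by
    have h1 := hIN1 n m p V hp hp3.le hV j j hj hj a 0 ha.le le_rfl (by linarith)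
      (fun x => F x ^ 2) (C ^ 2) (2 * k) (hR.Fc.pow 2).aestronglyMeasurable (hgrow2 F fun x => (hgr x).1)
    refine h1.congr (Filter.Eventually.of_forall fun x => ?_)
    beta_reduce
    rw [neg_zero, Real.rpow_zero, mul_one]
  have hF20 : Integrable (fun x => F x ^ 2 * ee p V x) :=
    hI0 (fun x => F x ^ 2) (C ^ 2) (2 * k) (hR.Fc.pow 2).aestronglyMeasurable (hgrow2 F fun x => (hgr x).1)
  have hmain : Integrable (fun x => (|V.mulVec x j| ^ (-a)
      * ∑ i, w i x ^ 2 / g2 p (V.mulVec x i)) * ee p V x) := hGint a ha.le hap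
  refine ⟨hmain, ?_⟩
  -- the inequality with Gaussian weights
  have hexp : ∀ s : ℝ, 0 ≤ s → ∀ x, Real.exp (-(s * t x ^ 2)) ≤ 1 := by
    intro s hs x
    rw [Real.exp_le_one_iff]
    have : 0 ≤ s * t x ^ 2 := by positivity
    linarith
  have hexpm : ∀ s : ℝ, Continuous fun x => Real.exp (-(s * t x ^ 2)) := by
    intro s
    exact Real.continuous_exp.comp ((continuous_const.mul (htc.pow 2)).neg)
  have hdom : ∀ s : ℝ, 0 ≤ s → ∀ f : (Fin m → ℝ) → ℝ, Integrable (fun x => f x * ee p V x) →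
      Integrable (fun x => f x * es p V (Pi.single j s) x) := by
    intro s hs f hf
    have h1 : (fun x => f x * es p V (Pi.single j s) x) =
        fun x => Real.exp (-(s * t x ^ 2)) * (f x * ee p V x) := by
      funext x
      rw [es_single]
      ring
    rw [h1]
    refine hf.bdd_mul (c := 1) (hexpm s).aestronglyMeasurable (Filter.Eventually.of_forall fun x => ?_)
    rw [Real.norm_eq_abs, abs_of_pos (Real.exp_pos _)]
    exact hexp s hs x
  have hs1 : ∀ s : ℝ, 0 ≤ s → ∫ x, F x ^ 2 * es p V (Pi.single j s) x ≤ ∫ x, G x * es p V (Pi.single j s) x := by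
    intro s hs
    have h1 := hBLC n m p V hp hp3 hV (Pi.single j s) (by
      intro i
      by_cases hij : i = j
      · subst hij
        rw [Pi.single_eq_same]
        exact hs
      · rw [Pi.single_eq_of_ne hij]) F w hR
    have h2 : ∫ x, F x * es p V (Pi.single j s) x = 0 := by
      apply int_odd
      intro x
      rw [es_single, es_single, ee_neg, hodd, Matrix.mulVec_neg, Pi.neg_apply, neg_sq]
      ring
    have h3 : 0 < ∫ x, es p V (Pi.single j s) x := by
      have h4 : Integrable (es p V (Pi.single j s)) := by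
        have h5 := hdom s hs (fun _ => 1) (hI0 (fun _ => 1) 1 0 aestronglyMeasurable_const (by intro x; simp))
        simpa using h5
      have h6 : ∀ x, 0 < es p V (Pi.single j s) x := fun x => mul_pos (Real.exp_pos _) (Real.exp_pos _)
      rw [integral_pos_iff_support_of_nonneg (fun x => (h6 x).le) h4]
      have h7 : Function.support (es p V (Pi.single j s)) = Set.univ := by
        ext x
        simp [(h6 x).ne']
      rw [h7]
      exact Measure.measure_univ_pos.mpr (NeZero.ne _)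
    rw [h2] at h1
    have h4 : (∫ x, es p V (Pi.single j s) x) * (∫ x, F x ^ 2 * es p V (Pi.single j s) x) ≤
        (∫ x, es p V (Pi.single j s) x) * ∫ x, G x * es p V (Pi.single j s) x := by
      have h5 : (0 : ℝ) ^ 2 = 0 := by norm_num
      rw [h5, sub_zero] at h1
      exact h1
    exact le_of_mul_le_mul_left h4 h3
  -- the double integral
  have hkey : ∀ f : (Fin m → ℝ) → ℝ, Measurable f → (∀ x, 0 ≤ f x) →
      ∫⁻ s in Set.Ioi (0 : ℝ), (∫⁻ x, ENNReal.ofReal (s ^ (a / 2 - 1) * (f x * es p V (Pi.single j s) x))) =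
      ENNReal.ofReal (Real.Gamma (a / 2)) * ∫⁻ x, ENNReal.ofReal ((|t x| ^ (-a) * f x) * ee p V x) := by
    intro f hf hf0
    have hem : Measurable (ee p V) := hec.measurable
    rw [lintegral_lintegral_swap]
    · rw [← lintegral_const_mul']
      · apply lintegral_congr_ae
        filter_upwards [null_hyper V j hj] with x hx
        have h1 : ∀ s ∈ Set.Ioi (0 : ℝ), ENNReal.ofReal (s ^ (a / 2 - 1) * (f x * es p V (Pi.single j s) x)) =
            ENNReal.ofReal (s ^ (a / 2 - 1) * Real.exp (-(s * t x ^ 2))) * ENNReal.ofReal (f x * ee p V x) := by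
          intro s hs
          rw [es_single, ← ENNReal.ofReal_mul]
          · congr 1
            ring
          · have : (0 : ℝ) < s := hs
            positivity
        rw [setLIntegral_congr_fun measurableSet_Ioi h1, lintegral_mul_const', gam a ha (t x) hx,
          ← ENNReal.ofReal_mul, ← ENNReal.ofReal_mul]
        · congr 1
          ring
        · exact (Real.Gamma_pos_of_pos (by linarith)).le
        · exact mul_nonneg (Real.Gamma_pos_of_pos (by linarith)).le (Real.rpow_nonneg (abs_nonneg _) _)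
        · exact ENNReal.ofReal_ne_top
      · exact ENNReal.ofReal_ne_top
    · apply Measurable.aemeasurable
      apply ENNReal.measurable_ofReal.comp
      have h1 : (fun z : ℝ × (Fin m → ℝ) => z.1 ^ (a / 2 - 1) * (f z.2 * es p V (Pi.single j z.1) z.2)) =
          fun z : ℝ × (Fin m → ℝ) => z.1 ^ (a / 2 - 1) * (f z.2 * (Real.exp (-(z.1 * t z.2 ^ 2)) * ee p V z.2)) := by
        funext z
        rw [es_single]
      show Measurable (fun z : ℝ × (Fin m → ℝ) => z.1 ^ (a / 2 - 1) * (f z.2 * es p V (Pi.single j z.1) z.2))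
      rw [h1]
      have m1 : Measurable fun z : ℝ × (Fin m → ℝ) => z.1 ^ (a / 2 - 1) := measurable_fst.pow_const _
      have m2 : Measurable fun z : ℝ × (Fin m → ℝ) => f z.2 := hf.comp measurable_snd
      have m3 : Measurable fun z : ℝ × (Fin m → ℝ) => t z.2 := htc.measurable.comp measurable_snd
      have m4 : Measurable fun z : ℝ × (Fin m → ℝ) => ee p V z.2 := hem.comp measurable_snd
      exact m1.mul (m2.mul ((Real.measurable_exp.comp ((measurable_fst.mul (m3.pow_const 2)).neg)).mul m4))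
  have hFm : Measurable fun x => F x ^ 2 := hR.Fc.measurable.pow_const 2
  have h1 := hkey (fun x => F x ^ 2) hFm (fun x => sq_nonneg _)
  have h2 := hkey G hGm hG0
  have h3 : ∫⁻ s in Set.Ioi (0 : ℝ), (∫⁻ x, ENNReal.ofReal (s ^ (a / 2 - 1) * (F x ^ 2 * es p V (Pi.single j s) x))) ≤
      ∫⁻ s in Set.Ioi (0 : ℝ), (∫⁻ x, ENNReal.ofReal (s ^ (a / 2 - 1) * (G x * es p V (Pi.single j s) x))) := by
    apply lintegral_mono_ae
    filter_upwards [ae_restrict_mem measurableSet_Ioi] with s hs
    have hs0 : (0 : ℝ) < s := hs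
    have hr : 0 ≤ s ^ (a / 2 - 1) := Real.rpow_nonneg hs0.le _
    have e1 : ∀ f : (Fin m → ℝ) → ℝ, (∀ x, 0 ≤ f x) → Integrable (fun x => f x * es p V (Pi.single j s) x) →
        ∫⁻ x, ENNReal.ofReal (s ^ (a / 2 - 1) * (f x * es p V (Pi.single j s) x)) =
        ENNReal.ofReal (s ^ (a / 2 - 1) * ∫ x, f x * es p V (Pi.single j s) x) := by
      intro f hf0 hfi
      rw [← integral_const_mul, ofReal_integral_eq_lintegral_ofReal (hfi.const_mul _)]
      exact Filter.Eventually.of_forall fun x =>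
        mul_nonneg hr (mul_nonneg (hf0 x) (mul_pos (Real.exp_pos _) (Real.exp_pos _)).le)
    rw [e1 (fun x => F x ^ 2) (fun x => sq_nonneg _) (hdom s hs0.le _ hF20), e1 G hG0 (hdom s hs0.le _ hGint0)]
    apply ENNReal.ofReal_le_ofReal
    exact mul_le_mul_of_nonneg_left (hs1 s hs0.le) hr
  rw [h1, h2] at h3
  have hgam : 0 < Real.Gamma (a / 2) := Real.Gamma_pos_of_pos (by linarith)
  have h4 : ∫⁻ x, ENNReal.ofReal ((|t x| ^ (-a) * F x ^ 2) * ee p V x) ≤
      ∫⁻ x, ENNReal.ofReal ((|t x| ^ (-a) * G x) * ee p V x) := by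
    have h5 : ENNReal.ofReal (Real.Gamma (a / 2)) ≠ 0 := by
      rw [Ne, ENNReal.ofReal_eq_zero, not_le]
      exact hgam
    exact (ENNReal.mul_le_mul_iff_right h5 ENNReal.ofReal_ne_top).mp h3
  rw [← ofReal_integral_eq_lintegral_ofReal hF2 (Filter.Eventually.of_forall fun x =>
      mul_nonneg (mul_nonneg (Real.rpow_nonneg (abs_nonneg _) _) (sq_nonneg _)) (ee_pos p V x).le),
    ← ofReal_integral_eq_lintegral_ofReal (hGint a ha.le hap) (Filter.Eventually.of_forall fun x =>
      mul_nonneg (mul_nonneg (Real.rpow_nonneg (abs_nonneg _) _) (hG0 x)) (ee_pos p V x).le)] at h4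
  have h6 : 0 ≤ ∫ x, (|t x| ^ (-a) * G x) * ee p V x := integral_nonneg fun x =>
    mul_nonneg (mul_nonneg (Real.rpow_nonneg (abs_nonneg _) _) (hG0 x)) (ee_pos p V x).le
  exact (ENNReal.ofReal_le_ofReal_iff h6).mp h4

end Pool.Agent.Helper44.GJ
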